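import Mathlib.LinearAlgebra.Matrix.Charpoly.Basic
import Mathlib.LinearAlgebra.Matrix.Charpoly.Eigs
import Mathlib.LinearAlgebra.Matrix.ToLinearEquiv
import Mathlib.FieldTheory.IsAlgClosed.AlgebraicClosure

/-!
# Project RCK (MP_6cbef8_nt), module Alg: a common eigenvalue makes `B² - (tr A) B + det A` singular
-/

set_option autoImplicit false

namespace Pool.Agent.Helper37.Rc

open Matrix Polynomial

theorem det_quad_eq_zero {K : Type*} [Field K] {n : ℕ} (A : Matrix (Fin 2) (Fin 2) K)
    (B : Matrix (Fin n) (Fin n) K) (h : ¬ IsCoprime A.charpoly B.charpoly) :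
    (B ^ 2 - A.trace • B + A.det • (1 : Matrix (Fin n) (Fin n) K)).det = 0 := by
  rw [Polynomial.isCoprime_iff_aeval_ne_zero_of_isAlgClosed K (AlgebraicClosure K)] at h
  push Not at h
  obtain ⟨β, h1, h2⟩ := h
  obtain ⟨f, hf⟩ : ∃ f : K →+* AlgebraicClosure K, f = algebraMap K (AlgebraicClosure K) :=
    ⟨_, rfl⟩
  rw [charpoly_fin_two] at h1
  simp only [map_add, map_sub, map_mul, map_pow, aeval_X, aeval_C, ← hf] at h1
  have h3 : (scalar (Fin n) β - B.map f).det = 0 := by
    rw [← eval_charpoly, charpoly_map, eval_map, hf]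
    exact h2
  have h4 : f.mapMatrix (B ^ 2 - A.trace • B + A.det • (1 : Matrix (Fin n) (Fin n) K)) =
      (scalar (Fin n) β - B.map f) * (scalar (Fin n) (f A.trace - β) - B.map f) := by
    have h5 : f.mapMatrix (A.trace • B) = f A.trace • B.map f := by
      ext i j
      simp
    have h6 : f.mapMatrix (A.det • (1 : Matrix (Fin n) (Fin n) K)) =
        f A.det • (1 : Matrix (Fin n) (Fin n) (AlgebraicClosure K)) := by
      ext i j
      simp [Matrix.one_apply, apply_ite f]
    have h7 : f.mapMatrix (B ^ 2) = B.map f * B.map f := by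
      rw [map_pow, pow_two]
      rfl
    have h8 : ∀ c : AlgebraicClosure K, scalar (Fin n) c = c • (1 : Matrix (Fin n) (Fin n) _) := by
      intro c
      ext i j
      simp [Matrix.one_apply, Matrix.scalar_apply, Matrix.diagonal_apply]
    rw [map_add, map_sub, h5, h6, h7, h8, h8]
    simp only [sub_mul, mul_sub, smul_mul_assoc, mul_smul_comm, one_mul, mul_one]
    have h9 : f A.det = β * (f A.trace - β) := by linear_combination h1
    have h10 := smul_comm β (f A.trace) (1 : Matrix (Fin n) (Fin n) (AlgebraicClosure K))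
    rw [h9]
    simp only [sub_smul, mul_smul, smul_sub]
    rw [h10]
    abel
  have h5 : f ((B ^ 2 - A.trace • B + A.det • (1 : Matrix (Fin n) (Fin n) K)).det) = 0 := by
    rw [RingHom.map_det, h4, det_mul, h3, zero_mul]
  exact (map_eq_zero_iff f f.injective).1 h5

end Pool.Agent.Helper37.Rc
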