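import Mathlib.RingTheory.Polynomial.Resultant.Basic
import Mathlib.NumberTheory.NumberField.Basic
import Mathlib.NumberTheory.NumberField.Norm
import Mathlib.NumberTheory.NumberField.InfinitePlace.Basic
import Mathlib.NumberTheory.NumberField.InfinitePlace.Embeddings
import Mathlib.RingTheory.Ideal.Norm.AbsNorm
import Mathlib.Analysis.Complex.Polynomial.Basic

/-!
# Project RCK (MP_6cbef8_nt), module Num: a common root modulo a large ideal is a common factor

PLAN. `ρ = resultant f g : 𝓞 M` (default degrees). (1) `exists_mul_add_mul_eq_C_resultant` gives `f * a + g * b = C ρ`; apply `eval₂ φ z`: `φ ρ = 0`, so `ρ ∈ ker φ` and, if `ρ ≠ 0`,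
`absNorm (ker φ) ∣ absNorm (span {ρ}) = |Algebra.norm ℤ ρ|.natAbs` (`Ideal.absNorm_dvd_absNorm_of_le`, `Ideal.absNorm_span_singleton`), which is nonzero, so
`absNorm (ker φ) ≤ |norm ρ|`. (2) For `σ : M →+* ℂ`, `σ ρ = resultant (f.map σ') (g.map σ') 2 n` (`Polynomial.resultant_map_map`, `σ' = σ.comp (algebraMap (𝓞 M) M)`), which is a product of
`2 * n` differences of roots (`resultant_eq_prod_roots_sub`, monic polynomials over `ℂ` split), so `‖σ ρ‖ ≤ (2 c) ^ (2 n)`.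
(3) `|norm ρ| = ∏ σ, ‖σ ρ‖ ≤ (2 c) ^ (2 n [M : ℚ])` (`Algebra.norm_eq_prod_embeddings` for `ℚ ⊂ M ⊂ ℂ`, embeddings `M →ₐ[ℚ] ℂ` are in bijection with `M →+* ℂ`, their number is
`finrank ℚ M`: `NumberField.Embeddings.card`, `AlgHom.card`). So `ρ = 0`. (4) `φ`, `ι` arbitrary: over the field `E` with `ι : M →+* E` the resultant of
the mapped polynomials is `ι ρ = 0` (`resultant_map_map`, monic so degrees are kept), so they are not coprime (`Polynomial.resultant_eq_zero_iff` or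
`isUnit_resultant_iff_isCoprime`).
-/

set_option autoImplicit false

namespace Pool.Agent.Helper37.Rc

open Polynomial NumberField

private lemma norm_prod_le {C : ℝ} (hC : 0 ≤ C) (s : Multiset ℂ) (h : ∀ x ∈ s, ‖x‖ ≤ C) :
    ‖s.prod‖ ≤ C ^ Multiset.card s := by
  induction s using Multiset.induction_on with
  | empty => simp
  | cons a s ih =>
    rw [Multiset.prod_cons, norm_mul, Multiset.card_cons, pow_succ']
    exact mul_le_mul (h a (Multiset.mem_cons_self a s))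
      (ih fun x hx => h x (Multiset.mem_cons_of_mem hx)) (norm_nonneg _) hC

private lemma norm_resultant_le {F G : ℂ[X]} (hF : F.Monic) (hG : G.Monic) {c : ℝ} (hc : 0 ≤ c)
    (hFc : ∀ z, F.IsRoot z → ‖z‖ ≤ c) (hGc : ∀ z, G.IsRoot z → ‖z‖ ≤ c) :
    ‖resultant F G‖ ≤ (2 * c) ^ (F.natDegree * G.natDegree) := by
  have hF' : F.Splits := IsAlgClosed.splits F
  have hG' : G.Splits := IsAlgClosed.splits G
  rw [resultant_eq_prod_roots_sub F G hF hG hF' hG']
  have h1 := norm_prod_le (C := 2 * c) (by positivity)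
    ((F.roots ×ˢ G.roots).map fun ij => ij.1 - ij.2) ?_
  · rw [Multiset.card_map, Multiset.card_product, ← hF'.natDegree_eq_card_roots,
      ← hG'.natDegree_eq_card_roots] at h1
    exact h1
  · intro x hx
    obtain ⟨ij, hij, rfl⟩ := Multiset.mem_map.mp hx
    rw [Multiset.mem_product] at hij
    have h2 := hFc _ (isRoot_of_mem_roots hij.1)
    have h3 := hGc _ (isRoot_of_mem_roots hij.2)
    calc ‖ij.1 - ij.2‖ ≤ ‖ij.1‖ + ‖ij.2‖ := norm_sub_le _ _
      _ ≤ 2 * c := by linarith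

private lemma norm_emb_le {M : Type*} [Field M] {f g : (𝓞 M)[X]} (hf : f.Monic)
    (hg : g.Monic) {c : ℝ} (hc : 0 ≤ c) (σ : M →+* ℂ)
    (hfc : ∀ z : ℂ, f.eval₂ (σ.comp (algebraMap (𝓞 M) M)) z = 0 → ‖z‖ ≤ c)
    (hgc : ∀ z : ℂ, g.eval₂ (σ.comp (algebraMap (𝓞 M) M)) z = 0 → ‖z‖ ≤ c) :
    ‖σ (resultant f g : 𝓞 M)‖ ≤ (2 * c) ^ (f.natDegree * g.natDegree) := by
  have h1 := norm_resultant_le (hf.map (σ.comp (algebraMap (𝓞 M) M)))
    (hg.map (σ.comp (algebraMap (𝓞 M) M))) hc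
    (fun z hz => hfc z (by rw [IsRoot, eval_map] at hz; exact hz))
    (fun z hz => hgc z (by rw [IsRoot, eval_map] at hz; exact hz))
  rw [hf.natDegree_map, hg.natDegree_map, resultant_map_map] at h1
  exact h1

private lemma natAbs_norm_le {M : Type*} [Field M] [NumberField M] (ρ : 𝓞 M) {B : ℝ}
    (h : ∀ σ : M →+* ℂ, ‖σ (ρ : M)‖ ≤ B) :
    ((Algebra.norm ℤ ρ).natAbs : ℝ) ≤ B ^ Module.finrank ℚ M := by
  have h1 := Algebra.norm_eq_prod_embeddings ℚ ℂ (ρ : M)
  have h2 : ((Algebra.norm ℤ ρ).natAbs : ℝ) = ‖algebraMap ℚ ℂ (Algebra.norm ℚ (ρ : M))‖ := by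
    rw [← Algebra.coe_norm_int, Nat.cast_natAbs]
    simp
  rw [h2, h1, norm_prod]
  calc ∏ σ : M →ₐ[ℚ] ℂ, ‖σ (ρ : M)‖ ≤ ∏ _σ : M →ₐ[ℚ] ℂ, B :=
        Finset.prod_le_prod (fun _ _ => norm_nonneg _) fun σ _ => h (σ : M →+* ℂ)
    _ = B ^ Module.finrank ℚ M := by
        rw [Finset.prod_const, Finset.card_univ, AlgHom.card]

theorem not_isCoprime_of_common_root {M : Type*} [Field M] [NumberField M] {n : ℕ}
    {f g : (𝓞 M)[X]} (hf : f.Monic) (hg : g.Monic) (hf2 : f.natDegree = 2)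
    (hgn : g.natDegree = n) {c : ℝ} (hc : 0 ≤ c)
    (hfc : ∀ σ : M →+* ℂ, ∀ z : ℂ, f.eval₂ (σ.comp (algebraMap (𝓞 M) M)) z = 0 → ‖z‖ ≤ c)
    (hgc : ∀ σ : M →+* ℂ, ∀ z : ℂ, g.eval₂ (σ.comp (algebraMap (𝓞 M) M)) z = 0 → ‖z‖ ≤ c)
    {A : Type*} [CommRing A] (φ : 𝓞 M →+* A) (z : A) (h1 : f.eval₂ φ z = 0)
    (h2 : g.eval₂ φ z = 0)
    (hN : (2 * c) ^ (2 * n * Module.finrank ℚ M) < (Ideal.absNorm (RingHom.ker φ) : ℝ))
    {E : Type*} [Field E] (ι : M →+* E) :
    ¬ IsCoprime (f.map (ι.comp (algebraMap (𝓞 M) M))) (g.map (ι.comp (algebraMap (𝓞 M) M))) := by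
  have hρ : (resultant f g : 𝓞 M) = 0 := by
    by_contra hne
    obtain ⟨p, q, -, -, hpq⟩ := exists_mul_add_mul_eq_C_resultant f g le_rfl le_rfl
      (Or.inl (by rw [hf2]; norm_num))
    have h3 : φ (resultant f g) = 0 := by
      have h4 := congrArg (eval₂ φ z) hpq
      rw [eval₂_add, eval₂_mul, eval₂_mul, h1, h2, zero_mul, zero_mul, zero_add, eval₂_C] at h4
      exact h4.symm
    have h5 : Ideal.span {(resultant f g : 𝓞 M)} ≤ RingHom.ker φ := by
      rw [Ideal.span_le, Set.singleton_subset_iff]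
      exact h3
    have h6 := Ideal.absNorm_dvd_absNorm_of_le h5
    rw [Ideal.absNorm_span_singleton] at h6
    have h7 : 0 < (Algebra.norm ℤ (resultant f g : 𝓞 M)).natAbs := by
      rw [Int.natAbs_pos, Ne, Algebra.norm_eq_zero_iff]
      exact hne
    have h8 : (Ideal.absNorm (RingHom.ker φ) : ℝ) ≤
        ((Algebra.norm ℤ (resultant f g : 𝓞 M)).natAbs : ℝ) :=
      Nat.cast_le.mpr (Nat.le_of_dvd h7 h6)
    have h9 := natAbs_norm_le (resultant f g : 𝓞 M) (B := (2 * c) ^ (2 * n))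
      (fun σ => by
        have h10 := norm_emb_le hf hg hc σ (hfc σ) (hgc σ)
        have h11 : f.natDegree * g.natDegree = 2 * n := by rw [hf2, hgn]
        rw [h11] at h10
        exact h10)
    rw [← pow_mul] at h9
    linarith
  have h3 : resultant (f.map (ι.comp (algebraMap (𝓞 M) M)))
      (g.map (ι.comp (algebraMap (𝓞 M) M))) = 0 := by
    rw [hf.natDegree_map, hg.natDegree_map, resultant_map_map, hρ, map_zero]
  exact (resultant_eq_zero_iff.mp h3).2

end Pool.Agent.Helper37.Rc
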