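import Pool.Agent.Helper37.Af.Defs
import Mathlib.LinearAlgebra.Matrix.Charpoly.Basic
import Mathlib.Algebra.MvPolynomial.Degrees

/-!
# Project RCK (MP_6cbef8_nt), module Quad: the polynomial `det (Y² - (tr X) Y + det X)`

It has total degree at most `2 n`, because every entry of the matrix has total degree at most `2`,
and for every invertible `Y` and every `δ` it does not vanish at some `X` of determinant `δ`.
-/

set_option autoImplicit false

namespace Pool.Agent.Helper37.Rc

open Matrix Pool.Agent.Helper37.Af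

private lemma quad_mapSmul {R S : Type*} [CommRing R] [CommRing S] (φ : R →+* S) {n : ℕ} (c : R)
    (M : Matrix (Fin n) (Fin n) R) : φ.mapMatrix (c • M) = φ c • φ.mapMatrix M := by
  ext a b
  simp [RingHom.mapMatrix_apply]

/-- the generic matrix of size two -/
private noncomputable def quadX {E : Type*} [Field E] {n : ℕ} :
    Matrix (Fin 2) (Fin 2)
      (MvPolynomial ((Fin 2 × Fin 2) ⊕ (Σ _ : Unit, Fin n × Fin n)) E) :=
  Matrix.of fun a b => MvPolynomial.X (Sum.inl (a, b))

/-- the generic matrix of size `n` -/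
private noncomputable def quadY {E : Type*} [Field E] {n : ℕ} :
    Matrix (Fin n) (Fin n)
      (MvPolynomial ((Fin 2 × Fin 2) ⊕ (Σ _ : Unit, Fin n × Fin n)) E) :=
  Matrix.of fun c d => MvPolynomial.X (Sum.inr ⟨(), (c, d)⟩)

/-- the matrix -/
private noncomputable def quadM {E : Type*} [Field E] {n : ℕ} :
    Matrix (Fin n) (Fin n)
      (MvPolynomial ((Fin 2 × Fin 2) ⊕ (Σ _ : Unit, Fin n × Fin n)) E) :=
  quadY ^ 2 - (quadX (E := E) (n := n)).trace • quadY +
      (quadX (E := E) (n := n)).det • (1 : Matrix (Fin n) (Fin n) _)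

/-- the polynomial -/
private noncomputable def quadP {E : Type*} [Field E] {n : ℕ} :
    MvPolynomial ((Fin 2 × Fin 2) ⊕ (Σ _ : Unit, Fin n × Fin n)) E :=
  (quadM (E := E) (n := n)).det

private lemma quadP_eval {E : Type*} [Field E] {n : ℕ}
    (x : Matrix (Fin 2) (Fin 2) E) (z : Unit → Matrix (Fin n) (Fin n) E) :
    MvPolynomial.eval (ent x z) (quadP (E := E) (n := n)) =
      (z () ^ 2 - x.trace • z () + x.det • (1 : Matrix (Fin n) (Fin n) E)).det := by
  have h1 : (MvPolynomial.eval (ent x z)).mapMatrix (quadY (E := E) (n := n)) = z () := by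
    ext c d
    simp [RingHom.mapMatrix_apply, ent, quadY]
  have h2 : (MvPolynomial.eval (ent x z)).mapMatrix (quadX (E := E) (n := n)) = x := by
    ext c d
    simp [RingHom.mapMatrix_apply, ent, quadX]
  have h3 : MvPolynomial.eval (ent x z) (quadX (E := E) (n := n)).trace = x.trace := by
    rw [Matrix.trace_fin_two, Matrix.trace_fin_two, map_add]
    simp [ent, quadX]
  rw [quadP, RingHom.map_det, quadM, map_add, map_sub, map_pow, quad_mapSmul, quad_mapSmul, h1, h3,
    RingHom.map_det, h2, map_one]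

private lemma quad_exists {E : Type*} [Field E] [CharZero E] {n : ℕ} (B : GL (Fin n) E) (δ : E) :
    ∃ t : E, ((B : Matrix (Fin n) (Fin n) E) ^ 2 - t • (B : Matrix (Fin n) (Fin n) E) +
      δ • (1 : Matrix (Fin n) (Fin n) E)).det ≠ 0 := by
  set N : Matrix (Fin n) (Fin n) E := (B : Matrix (Fin n) (Fin n) E) +
    δ • ((B⁻¹ : GL (Fin n) E) : Matrix (Fin n) (Fin n) E) with hN
  have h1 : ∃ t : E, N.charpoly.eval t ≠ 0 := by
    by_contra hc
    push Not at hc
    have h2 : N.charpoly = 0 := by
      apply Polynomial.funext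
      intro r
      rw [hc r, Polynomial.eval_zero]
    exact (Matrix.charpoly_monic N).ne_zero h2
  obtain ⟨t, ht⟩ := h1
  refine ⟨t, ?_⟩
  rw [Matrix.eval_charpoly] at ht
  have h3 : (B : Matrix (Fin n) (Fin n) E) ^ 2 - t • (B : Matrix (Fin n) (Fin n) E) +
      δ • (1 : Matrix (Fin n) (Fin n) E) =
      (-(B : Matrix (Fin n) (Fin n) E)) * (Matrix.scalar (Fin n) t - N) := by
    have h4 : (B : Matrix (Fin n) (Fin n) E) * ((B⁻¹ : GL (Fin n) E) : Matrix (Fin n) (Fin n) E)
        = 1 := by
      rw [← Units.val_mul, mul_inv_cancel, Units.val_one]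
    have h5 : Matrix.scalar (Fin n) t = t • (1 : Matrix (Fin n) (Fin n) E) := by
      rw [Matrix.smul_one_eq_diagonal]
      rfl
    rw [h5, hN, mul_sub, neg_mul, neg_mul, mul_add, Matrix.mul_smul, Matrix.mul_smul, h4,
      Matrix.mul_one, pow_two]
    abel
  rw [h3, Matrix.det_mul]
  refine mul_ne_zero ?_ ht
  rw [Matrix.det_neg]
  refine mul_ne_zero (pow_ne_zero _ (by simp)) ?_
  have h6 : IsUnit (B : Matrix (Fin n) (Fin n) E).det :=
    (Matrix.isUnit_iff_isUnit_det _).mp B.isUnit
  exact h6.ne_zero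

private lemma quad_det_degree {E : Type*} [Field E] {σ : Type*} {n : ℕ}
    (M : Matrix (Fin n) (Fin n) (MvPolynomial σ E)) (h : ∀ i j, (M i j).totalDegree ≤ 2) :
    M.det.totalDegree ≤ 2 * n := by
  rw [Matrix.det_apply]
  refine (MvPolynomial.totalDegree_finsetSum _ _).trans (Finset.sup_le fun τ _ => ?_)
  have h1 : (∏ i, M (τ i) i).totalDegree ≤ 2 * n := by
    refine (MvPolynomial.totalDegree_finsetProd _ _).trans ?_
    calc ∑ i, (M (τ i) i).totalDegree ≤ ∑ _i : Fin n, 2 := Finset.sum_le_sum fun i _ => h (τ i) i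
      _ = 2 * n := by
        rw [Finset.sum_const, Finset.card_univ, Fintype.card_fin, smul_eq_mul, mul_comm]
  rcases Int.units_eq_one_or (Equiv.Perm.sign τ) with hs | hs
  · rw [hs, one_smul]
    exact h1
  · rw [hs, Units.neg_smul, one_smul, MvPolynomial.totalDegree_neg]
    exact h1

private lemma quad_entry {E : Type*} [Field E] {n : ℕ} (i j : Fin n) :
    (quadM (E := E) (n := n) i j).totalDegree ≤ 2 := by
  have hY : ∀ a b, ((quadY (E := E) (n := n)) a b).totalDegree ≤ 1 := fun a b =>
    (MvPolynomial.totalDegree_X _).le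
  have hX : ∀ a b, ((quadX (E := E) (n := n)) a b).totalDegree ≤ 1 := fun a b =>
    (MvPolynomial.totalDegree_X _).le
  rw [quadM, Matrix.add_apply, Matrix.sub_apply, Matrix.smul_apply, Matrix.smul_apply, smul_eq_mul,
    smul_eq_mul, pow_two, Matrix.mul_apply]
  refine (MvPolynomial.totalDegree_add _ _).trans (max_le
    ((MvPolynomial.totalDegree_sub _ _).trans (max_le ?_ ?_)) ?_)
  · refine (MvPolynomial.totalDegree_finsetSum _ _).trans (Finset.sup_le fun k _ => ?_)
    have h1 := MvPolynomial.totalDegree_mul (quadY (E := E) i k) (quadY k j)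
    have h2 := hY i k
    have h3 := hY k j
    omega
  · have h1 := MvPolynomial.totalDegree_mul (quadX (E := E) (n := n)).trace (quadY i j)
    have h2 : (quadX (E := E) (n := n)).trace.totalDegree ≤ 1 := by
      rw [Matrix.trace_fin_two]
      exact (MvPolynomial.totalDegree_add _ _).trans (max_le (hX 0 0) (hX 1 1))
    have h3 := hY i j
    omega
  · have h1 : (quadX (E := E) (n := n)).det.totalDegree ≤ 2 := by
      rw [Matrix.det_fin_two]
      refine (MvPolynomial.totalDegree_sub _ _).trans (max_le ?_ ?_)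
      · have h1 := MvPolynomial.totalDegree_mul (quadX (E := E) (n := n) 0 0) (quadX 1 1)
        have h2 := hX 0 0
        have h3 := hX 1 1
        omega
      · have h1 := MvPolynomial.totalDegree_mul (quadX (E := E) (n := n) 0 1) (quadX 1 0)
        have h2 := hX 0 1
        have h3 := hX 1 0
        omega
    by_cases hij : i = j
    · rw [hij, Matrix.one_apply_eq, mul_one]
      exact h1
    · rw [Matrix.one_apply_ne hij, mul_zero, MvPolynomial.totalDegree_zero]
      omega

theorem exists_quad (E : Type*) [Field E] [CharZero E] (n : ℕ) :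
    ∃ P : MvPolynomial ((Fin 2 × Fin 2) ⊕ (Σ _ : Unit, Fin n × Fin n)) E,
      P.totalDegree ≤ 2 * n ∧
      (∀ (x : Matrix (Fin 2) (Fin 2) E) (z : Unit → Matrix (Fin n) (Fin n) E),
        MvPolynomial.eval (ent x z) P =
          (z () ^ 2 - x.trace • z () + x.det • (1 : Matrix (Fin n) (Fin n) E)).det) ∧
      ∀ (B : GL (Fin n) E) (δ : E), ∃ x : Matrix (Fin 2) (Fin 2) E, x.det = δ ∧
        MvPolynomial.eval (ent x (fun _ => (B : Matrix (Fin n) (Fin n) E))) P ≠ 0 := by
  refine ⟨quadP, quad_det_degree _ quad_entry, quadP_eval, fun B δ => ?_⟩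
  obtain ⟨t, ht⟩ := quad_exists B δ
  refine ⟨!![0, -δ; 1, t], ?_, ?_⟩
  · rw [Matrix.det_fin_two_of]
    ring
  · rw [quadP_eval]
    have h1 : (!![0, -δ; 1, t]).trace = t := by
      rw [Matrix.trace_fin_two_of]
      ring
    have h2 : (!![0, -δ; 1, t]).det = δ := by
      rw [Matrix.det_fin_two_of]
      ring
    rw [h1, h2]
    exact ht

end Pool.Agent.Helper37.Rc
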